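import Pool.Agent.Run7.h818.HB.Five

/-!
# Perfect matchings without odd cuts in 5-regular graphs without large linked pairs

A multigraph has the vertices `Fin n` and the edges `Fin m`, `ends e` is the pair of ends of `e`.

* `Linked ends S T`: `S`, `T` are disjoint sets of vertices of odd size, both induce connected subgraphs
  with circuits of length at least five, and five pairwise disjoint edges join `S` and `T`.

Proof: a `4`-edge-connected `5`-regular multigraph is a `5`-graph, so it has five disjoint perfect
matchings by the theorem on `r`-graphs of `Pool/Agent/Run7/h818/HB`; each of them meets every odd cut.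
-/

set_option autoImplicit false

namespace Pool.Agent.Results.MP_ace318_co.LongCircuitBonds

open Run7.h818.HB Finset

/-- Let `G` be a loopless `4`-edge-connected `5`-regular multigraph.  If `G` has no linked pair, or if
`G` has no Petersen minor and `|S| + |T| ≤ 13` for all linked pairs `S`, `T`, then `G` has a perfect
matching `M` such that every odd cut contains an edge that is not in `M`. -/
theorem result (n m : ℕ) (ends : Fin m → Sym2 (Fin n)) (noloop : ∀ e, ¬ (ends e).IsDiag)
    (regular : ∀ v, #{e | v ∈ ends e} = 5)
    (connected : ∀ X : Finset (Fin n), X.Nonempty → X ≠ univ →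
      4 ≤ #{e | ∃ u, u ∈ X ∧ ∃ w, w ∉ X ∧ ends e = s(u, w)})
    (h : (∀ S T, ¬ Linked ends S T) ∨
      (¬ H76TY.PetMinor (SimpleGraph.fromEdgeSet (Set.range ends)) ∧
        ∀ S T, Linked ends S T → S.card + T.card ≤ 13)) :
    ∃ M : Finset (Fin m), (∀ v, ∃! e, e ∈ M ∧ v ∈ ends e) ∧
      ∀ X : Finset (Fin n), Odd X.card →
        ∃ e, (∃ u, u ∈ X ∧ ∃ w, w ∉ X ∧ ends e = s(u, w)) ∧ e ∉ M := by
  refine no_odd_cut (r := 5) (by norm_num) ends noloop
    (mcover ends (mgraph_five ends noloop regular connected) ?_)
  rcases h with h | h
  · exact Or.inr fun W _ H _ _ => Or.inr (Or.inr fun S T hST => absurd hST (h S T))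
  · exact Or.inl h

end Pool.Agent.Results.MP_ace318_co.LongCircuitBonds
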